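import Pool.Agent.H23.QCore

set_option autoImplicit false

namespace Pool.Agent.Results.MP_e10300_co.TriangleCounts

open Filter Topology

/-- `emb(F,G)`: the number of injective homomorphisms -/
noncomputable def emb {V W : Type} (F : SimpleGraph V) (G : SimpleGraph W) : ℕ :=
  Nat.card {f : F →g G // Function.Injective f}

/-- `s_p(F,G) = emb(F,G) / ((n)_|F| p^e(F))` for a graph `G` on `n` vertices -/
noncomputable def s {V : Type} [Fintype V] {n : ℕ} (p : ℝ) (F : SimpleGraph V)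
    (G : SimpleGraph (Fin n)) : ℝ :=
  (emb F G : ℝ) / ((n.descFactorial (Fintype.card V) : ℝ) * p ^ F.edgeSet.ncard)

lemma s_fin {m n : ℕ} (p : ℝ) (F : SimpleGraph (Fin m)) (G : SimpleGraph (Fin n)) :
    s p F G = H23.Qr.sF p F G := by
  unfold s
  rw [Fintype.card_fin]
  rfl

lemma s_iso {V W : Type} [Fintype V] [Fintype W] {n : ℕ} (p : ℝ) (F : SimpleGraph V)
    (F' : SimpleGraph W) (e : F ≃g F') (G : SimpleGraph (Fin n)) : s p F G = s p F' G := by
  have h1 : emb F G = emb F' G := by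
    unfold emb
    refine Nat.card_congr ⟨fun f => ⟨f.1.comp e.symm.toHom, f.2.comp e.symm.injective⟩,
      fun f => ⟨f.1.comp e.toHom, f.2.comp e.injective⟩, fun f => ?_, fun f => ?_⟩
    · apply Subtype.ext
      apply RelHom.ext
      intro x
      show f.1 (e.symm (e x)) = f.1 x
      rw [e.symm_apply_apply]
    · apply Subtype.ext
      apply RelHom.ext
      intro x
      show f.1 (e (e.symm x)) = f.1 x
      rw [e.apply_symm_apply]
  have h2 : F.edgeSet.ncard = F'.edgeSet.ncard := by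
    rw [← Nat.card_coe_set_eq, ← Nat.card_coe_set_eq]
    exact Nat.card_congr e.mapEdgeSet
  have h3 : Fintype.card V = Fintype.card W := Fintype.card_congr e.toEquiv
  unfold s
  rw [h1, h2, h3]

theorem result : ∀ (k : ℕ) (a : ℝ), 2 ≤ k → 0 < a →
    ∃ (p : ℕ → ℝ) (G : ∀ n : ℕ, SimpleGraph (Fin n)),
    (∀ n, 0 < p n ∧ p n ≤ 1) ∧
    Tendsto (fun n : ℕ => p n / ((Real.log n) ^ a * (n : ℝ) ^ (-(1 / (k : ℝ))))) atTop atTop ∧
    Tendsto (fun n : ℕ => s (p n) (⊤ : SimpleGraph (Fin 2)) (G n)) atTop (𝓝 1) ∧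
    Tendsto (fun n : ℕ => s (p n) (SimpleGraph.cycleGraph 4) (G n)) atTop (𝓝 1) ∧
    (∀ t : ℕ, ∃ C : ℝ, ∀ n : ℕ,
      s (p n) (completeBipartiteGraph (Fin k) (Fin t)) (G n) ≤ C) ∧
    ¬ Tendsto (fun n : ℕ => s (p n) (SimpleGraph.cycleGraph 3) (G n)) atTop (𝓝 1) := by
  intro k a hk ha
  obtain ⟨p, G, hp, hlog, hedge, hC4, hF, hK3⟩ := H23.Qr.core
  refine ⟨p, G, hp, ?_, ?_, ?_, ?_, ?_⟩
  · have hk0 : (0:ℝ) < (k:ℝ) := by
      have : 0 < k := by omega
      exact_mod_cast this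
    -- lower bound
    have h1 : ∀ᶠ n : ℕ in atTop, Real.log (1 / p n) / Real.log n < 1 / (2 * k) :=
      hlog.eventually (gt_mem_nhds (by positivity))
    have h2 : Tendsto (fun x : ℝ => x ^ (1 / (2 * (k:ℝ))) / (Real.log x) ^ a) atTop atTop := by
      have h3 := (isLittleO_log_rpow_rpow_atTop a (show (0:ℝ) < 1 / (2 * (k:ℝ)) by positivity))
      have h4 := h3.tendsto_div_nhds_zero
      have h5 : Tendsto (fun x : ℝ => (Real.log x) ^ a / x ^ (1 / (2 * (k:ℝ)))) atTop (𝓝[>] 0) := by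
        rw [tendsto_nhdsWithin_iff]
        refine ⟨h4, ?_⟩
        filter_upwards [eventually_gt_atTop (1:ℝ)] with x hx
        have := Real.log_pos hx
        have hx0 : (0:ℝ) < x := by linarith
        show 0 < (Real.log x) ^ a / x ^ (1 / (2 * (k:ℝ)))
        positivity
      refine h5.inv_tendsto_nhdsGT_zero.congr (fun x => ?_)
      show ((Real.log x) ^ a / x ^ (1 / (2 * (k:ℝ))))⁻¹ = _
      rw [inv_div]
    have h6 := h2.comp tendsto_natCast_atTop_atTop (α := ℕ)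
    refine tendsto_atTop_mono' atTop ?_ h6
    filter_upwards [h1, eventually_ge_atTop 3] with n hn hn3
    have hn1 : (1:ℝ) < (n:ℝ) := by
      have : 1 < n := by omega
      exact_mod_cast this
    have hn0 : (0:ℝ) < (n:ℝ) := by linarith
    have hL := Real.log_pos hn1
    rw [div_lt_iff₀ hL, one_div (p n), Real.log_inv] at hn
    have h7 : Real.log ((n:ℝ) ^ (-(1 / (2 * (k:ℝ))))) ≤ Real.log (p n) := by
      rw [Real.log_rpow hn0]; linarith
    have h8 : (n:ℝ) ^ (-(1 / (2 * (k:ℝ)))) ≤ p n :=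
      (Real.log_le_log_iff (by positivity) (hp n).1).mp h7
    show (n:ℝ) ^ (1 / (2 * (k:ℝ))) / (Real.log n) ^ a ≤
      p n / ((Real.log n) ^ a * (n : ℝ) ^ (-(1 / (k : ℝ))))
    have hLa : 0 < (Real.log n) ^ a := by positivity
    have hnk : 0 < (n : ℝ) ^ (-(1 / (k : ℝ))) := by positivity
    rw [div_le_div_iff₀ hLa (by positivity)]
    have h9 : (n:ℝ) ^ (1 / (2 * (k:ℝ))) * (n : ℝ) ^ (-(1 / (k : ℝ))) =
        (n:ℝ) ^ (-(1 / (2 * (k:ℝ)))) := by
      rw [← Real.rpow_add hn0]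
      congr 1
      field_simp
      ring
    calc (n:ℝ) ^ (1 / (2 * (k:ℝ))) * ((Real.log n) ^ a * (n : ℝ) ^ (-(1 / (k : ℝ)))) =
          ((n:ℝ) ^ (1 / (2 * (k:ℝ))) * (n : ℝ) ^ (-(1 / (k : ℝ)))) * (Real.log n) ^ a := by ring
      _ = (n:ℝ) ^ (-(1 / (2 * (k:ℝ)))) * (Real.log n) ^ a := by rw [h9]
      _ ≤ p n * (Real.log n) ^ a := mul_le_mul_of_nonneg_right h8 hLa.le
  · refine tendsto_const_nhds.congr' ?_
    filter_upwards [eventually_ge_atTop 2] with n hn
    have h1 := hedge n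
    have h2 : (0:ℝ) < (n.choose 2 : ℝ) := by exact_mod_cast Nat.choose_pos hn
    have hp1 := (hp n).1
    show (1:ℝ) = (emb (⊤ : SimpleGraph (Fin 2)) (G n) : ℝ) /
      ((n.descFactorial (Fintype.card (Fin 2)) : ℝ) * p n ^ (⊤ : SimpleGraph (Fin 2)).edgeSet.ncard)
    unfold emb
    rw [H23.Qr.emb_K2, H23.Qr.top_edges, Fintype.card_fin, H23.Qr.two_mul_choose]
    push_cast
    rw [h1]
    norm_num
    field_simp
  · refine hC4.congr (fun n => ?_)
    exact (s_fin _ _ _).symm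
  · intro t
    obtain ⟨C, hC⟩ := hF (k + t) ((completeBipartiteGraph (Fin k) (Fin t)).map
      finSumFinEquiv.toEmbedding)
    refine ⟨C, fun n => ?_⟩
    rw [s_iso (p n) _ _ (SimpleGraph.Iso.map finSumFinEquiv _) (G n), s_fin]
    exact hC n
  · intro h
    have h1 : Tendsto (fun n : ℕ => s (p n) (SimpleGraph.cycleGraph 3) (G n)) atTop
        (𝓝 (Real.exp 8)) := by
      refine hK3.congr (fun n => ?_)
      rw [SimpleGraph.cycleGraph_three_eq_top]
      exact (s_fin _ _ _).symm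
    have h2 := tendsto_nhds_unique h h1
    have h3 := Real.add_one_lt_exp (show (8:ℝ) ≠ 0 by norm_num)
    linarith

end Pool.Agent.Results.MP_e10300_co.TriangleCounts
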